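import Pool.Agent.R512.P.FourO

/-!
# Four points: at least eleven of the sixteen sign patterns of balanced functions of `Ω` have positive density

Asymptotic independence of the values of `Ω` (MP_e0aac0_nt) predicts that for functions `β₀, β₁, β₂, β₃` with values
`±1` and small mean values over the values of `Ω`, the sixteen sign patterns of `β_i(Ω(n + h_i))`, `i = 0, 1, 2, 3`,
have densities near `1/16`. We prove that at least eleven of them occur with density at least an absolute constant
`c > 0`, for arbitrary balanced functions of `Ω` at three of the points and an arbitrary balanced coarse function with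
values `±1` (function of `Ω`, of the prime signature, multiplicative function, ...) at the fourth one.
-/

set_option autoImplicit false

open Finset Filter

namespace Pool.Agent.Results.MP_e0aac0_nt.FunctionsOfOmegaFourPatterns

/-- `Ω(n)`, the number of prime factors counted with multiplicity -/
def Om (n : ℕ) : ℕ := ArithmeticFunction.cardFactors n

/-- the prime signature of `n`: the multiset of the exponents of the primes dividing `n` (it determines `Ω(n)`,
`ω(n)`, the number of divisors, ...) -/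
def signature (n : ℕ) : Multiset ℕ := n.primeFactors.val.map (fun p => n.factorization p)

/-- the part of `n` composed of the primes up to `y` -/
def smoothPart (y n : ℕ) : ℕ := ∏ p ∈ n.primeFactors.filter (fun p => p ≤ y), p ^ n.factorization p

/-- `u` is multiplicative with values in the unit disc (on the positive integers) -/
def Mult (u : ℕ → ℂ) : Prop := (∀ n, 1 ≤ n → ‖u n‖ ≤ 1) ∧
  ∀ m n : ℕ, 1 ≤ m → 1 ≤ n → Nat.Coprime m n → u (m * n) = u m * u n

/-- `g(n)`, `n ≥ 1`, is the product of an arbitrary function, bounded by one, of the `y`-smooth part and of the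
prime signature of `n` (for some `y`), and of an arbitrary multiplicative function bounded by one -/
def Coarse (g : ℕ → ℂ) : Prop := ∃ (y : ℕ) (B : ℕ → Multiset ℕ → ℂ) (u : ℕ → ℂ), (∀ s t, ‖B s t‖ ≤ 1) ∧ Mult u ∧
  ∀ n : ℕ, 1 ≤ n → g n = B (smoothPart y n) (signature n) * u n

/-- `x` is a sign -/
def IsSign (x : ℝ) : Prop := x = 1 ∨ x = -1

/-- the sign attached to a Boolean -/
noncomputable def sgn (b : Bool) : ℝ := if b then 1 else -1

/-- the functions at the four points: `β_0(Ω(n))`, `β_1(Ω(n))`, `β_2(Ω(n))` and `g(n)` -/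
def fn (β : Fin 3 → ℕ → ℝ) (g : ℕ → ℝ) : Fin 4 → ℕ → ℝ :=
  ![fun n => β 0 (Om n), fun n => β 1 (Om n), fun n => β 2 (Om n), g]

/-- the means of `β_0(Ω(n))`, `β_1(Ω(n))`, `β_2(Ω(n))` and `g(n)` over `1 ≤ n ≤ N` are at most `c` in absolute
value -/
def Balanced (c : ℝ) (β : Fin 3 → ℕ → ℝ) (g : ℕ → ℝ) (N : ℕ) : Prop := ∀ i, |∑ n ∈ Icc 1 N, fn β g i n| ≤ c * N

open Classical in
/-- the set of `n` with `1 ≤ n ≤ N` and the signs `b` at the points `n + h_0, n + h_1, n + h_2, n + h_3` -/
noncomputable def pattern (h : Fin 4 → ℕ) (β : Fin 3 → ℕ → ℝ) (g : ℕ → ℝ) (b : Fin 4 → Bool) (N : ℕ) : Finset ℕ :=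
  (Icc 1 N).filter (fun n => ∀ i, fn β g i (n + h i) = sgn (b i))

open Classical in
/-- the set of the sign patterns `b` (there are sixteen in all) which occur for at least `c N` integers `n ≤ N` -/
noncomputable def frequent (c : ℝ) (h : Fin 4 → ℕ) (β : Fin 3 → ℕ → ℝ) (g : ℕ → ℝ) (N : ℕ) :
    Finset (Fin 4 → Bool) := univ.filter (fun b => c * N ≤ (pattern h β g b N).card)

open Classical in
/-- the set of the sign patterns `b` such that the sum of `1 / n` over the `n ≤ X` with this pattern is at least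
`c log X` -/
noncomputable def logFrequent (c : ℝ) (h : Fin 4 → ℕ) (β : Fin 3 → ℕ → ℝ) (g : ℕ → ℝ) (X : ℕ) :
    Finset (Fin 4 → Bool) := univ.filter (fun b => c * Real.log X ≤ ∑ n ∈ pattern h β g b X, (1 : ℝ) / n)

open Classical in
/-- `E` has logarithmic density zero -/
def LogDensityZero (E : Set ℕ) : Prop := Tendsto
  (fun X : ℕ => (∑ n ∈ Icc 1 X, if n ∈ E then (1 : ℝ) / n else 0) / Real.log X) atTop (nhds 0)

/-- **Theorem.** There is an absolute constant `c > 0` such that for all distinct shifts `h_0, h_1, h_2, h_3`, all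
functions `β_0, β_1, β_2 : ℕ → {1, -1}` and all coarse functions `g` with values `±1`:
(A) there is a set `E` of logarithmic density zero such that for all `N` outside `E` for which the means of
`β_0(Ω(n))`, `β_1(Ω(n))`, `β_2(Ω(n))`, `g(n)` over `n ≤ N` are at most `c` in absolute value, at least eleven of the
sixteen sign patterns of `β_0(Ω(n + h_0)), β_1(Ω(n + h_1)), β_2(Ω(n + h_2)), g(n + h_3)` occur for at least `c N`
integers `n ≤ N` each;
(B) if the set of the `N` for which one of the four means is larger than `c` has logarithmic density zero, then for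
all large `X` at least eleven of the patterns occur with logarithmic frequency at least `c` up to `X`. -/
theorem result : ∃ c : ℝ, 0 < c ∧ ∀ h : Fin 4 → ℕ, Function.Injective h → ∀ β : Fin 3 → ℕ → ℝ,
    (∀ i l, IsSign (β i l)) → ∀ g : ℕ → ℝ, (∀ n, 1 ≤ n → IsSign (g n)) → Coarse (fun n => (g n : ℂ)) →
    (∃ E : Set ℕ, LogDensityZero E ∧ ∀ N : ℕ, N ∉ E → Balanced c β g N → 11 ≤ (frequent c h β g N).card) ∧
    (LogDensityZero {N | ¬ Balanced c β g N} → ∃ X₀ : ℕ, ∀ X : ℕ, X₀ ≤ X → 11 ≤ (logFrequent c h β g X).card) := by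
  classical
  obtain ⟨c, hc0, hc1, h1⟩ := Pool.Agent.R512.P.fourO
  refine ⟨c / 4, by positivity, fun h hh β hβ g hg hgC => ?_⟩
  obtain ⟨E, hE, h2⟩ := h1 h hh (fn β g) (fun i hi => by
    fin_cases i
    · exact ⟨β 0, hβ 0, fun n => rfl⟩
    · exact ⟨β 1, hβ 1, fun n => rfl⟩
    · exact ⟨β 2, hβ 2, fun n => rfl⟩
    · exact absurd rfl hi) hg hgC
  have hbal : ∀ N : ℕ, Balanced (c / 4) β g N → ∀ i, |∑ n ∈ Icc 1 N, fn β g i n| ≤ c * N := fun N hB i =>
    (hB i).trans (mul_le_mul_of_nonneg_right (by linarith) (Nat.cast_nonneg N))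
  have hHas : ∀ (b : Fin 4 → Bool) (n : ℕ), Pool.Agent.R512.P.HasP (fn β g) h b n ↔
      ∀ i, fn β g i (n + h i) = sgn (b i) := fun b n => Iff.rfl
  constructor
  · refine ⟨E, hE, fun N hN hB => ?_⟩
    obtain ⟨g1, g2⟩ := h2 N hN (hbal N hB)
    have hN0 : (0 : ℝ) ≤ N := Nat.cast_nonneg N
    have hsplit : ∀ b b' : Fin 4 → Bool, c * N ≤ ((Icc 1 N).filter (fun n =>
        Pool.Agent.R512.P.HasP (fn β g) h b n ∨ Pool.Agent.R512.P.HasP (fn β g) h b' n)).card →
        (c / 4 * N ≤ (pattern h β g b N).card) ∨ (c / 4 * N ≤ (pattern h β g b' N).card) := by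
      intro b b' h3
      by_contra hcon
      push Not at hcon
      have h4 : ((Icc 1 N).filter (fun n => Pool.Agent.R512.P.HasP (fn β g) h b n ∨
          Pool.Agent.R512.P.HasP (fn β g) h b' n)).card ≤
          (pattern h β g b N).card + (pattern h β g b' N).card := by
        rw [filter_or]
        refine (card_union_le _ _).trans (le_of_eq ?_)
        unfold pattern
        simp only [hHas]
      have h5 : (((Icc 1 N).filter (fun n => Pool.Agent.R512.P.HasP (fn β g) h b n ∨
          Pool.Agent.R512.P.HasP (fn β g) h b' n)).card : ℝ) ≤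
          (pattern h β g b N).card + (pattern h β g b' N).card := by exact_mod_cast h4
      have h6 : 0 ≤ c * (N : ℝ) := by positivity
      linarith [hcon.1, hcon.2]
    have h7 := Pool.Agent.R512.P.eleven (fun b => c / 4 * N ≤ (pattern h β g b N).card)
      (fun b b' i hne hbb => hsplit b b' (g1 b b' i hne hbb)) (fun b => hsplit b _ (g2 b))
    refine h7.trans (le_of_eq ?_)
    unfold frequent
    congr!
  · intro hZ
    have hbad : Pool.Agent.Y958.U.LZ (E ∪ {N | ¬ Balanced (c / 4) β g N}) :=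
      Pool.Agent.Y958.U.LZ_union hE hZ
    -- log frequencies of pairs of patterns
    have hpair : ∀ b b' : Fin 4 → Bool, (∀ N : ℕ, N ∉ E ∪ {N | ¬ Balanced (c / 4) β g N} →
        c * N ≤ ((Icc 1 N).filter (fun n => Pool.Agent.R512.P.HasP (fn β g) h b n ∨
          Pool.Agent.R512.P.HasP (fn β g) h b' n)).card) → ∃ X₀ : ℕ, ∀ X : ℕ, X₀ ≤ X →
        (c / 4 * Real.log X ≤ ∑ n ∈ pattern h β g b X, (1 : ℝ) / n) ∨
        (c / 4 * Real.log X ≤ ∑ n ∈ pattern h β g b' X, (1 : ℝ) / n) := by
      intro b b' h3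
      obtain ⟨X₀, hX₀⟩ := Pool.Agent.R512.P.log_low (fun n => Pool.Agent.R512.P.HasP (fn β g) h b n ∨
        Pool.Agent.R512.P.HasP (fn β g) h b' n) c hc0 hc1 (Pool.Agent.Y958.U.LZ_sub (by
          intro N hN
          by_contra hcon
          exact hN (h3 N hcon)) hbad)
      refine ⟨X₀ + 1, fun X hX => ?_⟩
      have h4 := hX₀ X (by omega)
      by_contra hcon
      push Not at hcon
      have h5 : ∑ n ∈ (Icc 1 X).filter (fun n => Pool.Agent.R512.P.HasP (fn β g) h b n ∨
          Pool.Agent.R512.P.HasP (fn β g) h b' n), (1 : ℝ) / n ≤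
          ∑ n ∈ pattern h β g b X, (1 : ℝ) / n + ∑ n ∈ pattern h β g b' X, (1 : ℝ) / n := by
        have e : ∀ b'' : Fin 4 → Bool, pattern h β g b'' X =
            (Icc 1 X).filter (fun n => Pool.Agent.R512.P.HasP (fn β g) h b'' n) := by
          intro b''
          unfold pattern
          simp only [hHas]
        rw [filter_or, e, e, ← sum_union_inter]
        have : (0 : ℝ) ≤ ∑ n ∈ (Icc 1 X).filter (fun n => Pool.Agent.R512.P.HasP (fn β g) h b n) ∩
            (Icc 1 X).filter (fun n => Pool.Agent.R512.P.HasP (fn β g) h b' n), (1 : ℝ) / n :=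
          sum_nonneg fun n _ => by positivity
        linarith
      linarith [hcon.1, hcon.2]
    have hall : ∀ bb : (Fin 4 → Bool) × (Fin 4 → Bool), ∃ X₀ : ℕ, (∀ N : ℕ, N ∉ E ∪ {N | ¬ Balanced (c / 4) β g N} →
        c * N ≤ ((Icc 1 N).filter (fun n => Pool.Agent.R512.P.HasP (fn β g) h bb.1 n ∨
          Pool.Agent.R512.P.HasP (fn β g) h bb.2 n)).card) → ∀ X : ℕ, X₀ ≤ X →
        (c / 4 * Real.log X ≤ ∑ n ∈ pattern h β g bb.1 X, (1 : ℝ) / n) ∨
        (c / 4 * Real.log X ≤ ∑ n ∈ pattern h β g bb.2 X, (1 : ℝ) / n) := by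
      intro bb
      by_cases hP : ∀ N : ℕ, N ∉ E ∪ {N | ¬ Balanced (c / 4) β g N} →
        c * N ≤ ((Icc 1 N).filter (fun n => Pool.Agent.R512.P.HasP (fn β g) h bb.1 n ∨
          Pool.Agent.R512.P.HasP (fn β g) h bb.2 n)).card
      · obtain ⟨X₀, hX₀⟩ := hpair bb.1 bb.2 hP
        exact ⟨X₀, fun _ => hX₀⟩
      · exact ⟨0, fun hP' => absurd hP' hP⟩
    choose X₁ hX₁ using hall
    refine ⟨∑ bb, X₁ bb, fun X hX => ?_⟩
    have hX' : ∀ bb, X₁ bb ≤ X := fun bb => (single_le_sum (f := X₁) (fun _ _ => Nat.zero_le _) (mem_univ bb)).trans hX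
    have h8 : ∀ N : ℕ, N ∉ E ∪ {N | ¬ Balanced (c / 4) β g N} → N ∉ E ∧ Balanced (c / 4) β g N := by
      intro N hN
      rw [Set.mem_union, not_or] at hN
      refine ⟨hN.1, ?_⟩
      by_contra hB
      exact hN.2 hB
    have h7 := Pool.Agent.R512.P.eleven (fun b => c / 4 * Real.log X ≤ ∑ n ∈ pattern h β g b X, (1 : ℝ) / n)
      (fun b b' i hne hbb => hX₁ (b, b') (fun N hN => (h2 N (h8 N hN).1 (hbal N (h8 N hN).2)).1 b b' i hne hbb) X
        (hX' _))
      (fun b => hX₁ (b, fun i => !(b i)) (fun N hN => (h2 N (h8 N hN).1 (hbal N (h8 N hN).2)).2 b) X (hX' _))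
    refine h7.trans (le_of_eq ?_)
    unfold logFrequent
    congr!

end Pool.Agent.Results.MP_e0aac0_nt.FunctionsOfOmegaFourPatterns
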