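import Pool.Agent.R512.Q.FinE

/-!
# Rigidity of the values of `Ω` at any number of points

Asymptotic independence of the values of `Ω` at `n + h_1, ..., n + h_k` (MP_e0aac0_nt), any `k` and any fixed distinct
shifts: a function `β(Ω(n + h_j))`, `β^m = 1`, which is not almost constant is not almost equal, up to a constant, to a
product of functions of the values of `Ω` at the other points, with a gap depending on `k`, `m`, `δ` only. At the other
points one may take arbitrary functions of the prime signature and of the smooth part, times arbitrary bounded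
multiplicative functions.
-/

set_option autoImplicit false

open Finset Filter

namespace Pool.Agent.Results.MP_e0aac0_nt.FunctionsOfOmegaRigidity

/-- `Ω(n)`, the number of prime factors counted with multiplicity -/
def Om (n : ℕ) : ℕ := ArithmeticFunction.cardFactors n

/-- the prime signature of `n`: the multiset of the exponents of the primes dividing `n` (it determines `Ω(n)`,
`ω(n)`, the number of divisors, ...) -/
def signature (n : ℕ) : Multiset ℕ := n.primeFactors.val.map (fun p => n.factorization p)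

/-- the part of `n` composed of the primes up to `y` -/
def smoothPart (y n : ℕ) : ℕ := ∏ p ∈ n.primeFactors.filter (fun p => p ≤ y), p ^ n.factorization p

/-- `u` is multiplicative with values in the unit disc (on the positive integers) -/
def Mult (u : ℕ → ℂ) : Prop := (∀ n, 1 ≤ n → ‖u n‖ ≤ 1) ∧
  ∀ m n : ℕ, 1 ≤ m → 1 ≤ n → Nat.Coprime m n → u (m * n) = u m * u n

/-- `g(n)`, `n ≥ 1`, is the product of an arbitrary function, bounded by one, of the `y`-smooth part and of the
prime signature of `n` (for some `y`), and of an arbitrary multiplicative function bounded by one; for instance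
`g(n) = a(Ω(n))` with `|a| ≤ 1` -/
def Coarse (g : ℕ → ℂ) : Prop := ∃ (y : ℕ) (B : ℕ → Multiset ℕ → ℂ) (u : ℕ → ℂ), (∀ s t, ‖B s t‖ ≤ 1) ∧ Mult u ∧
  ∀ n : ℕ, 1 ≤ n → g n = B (smoothPart y n) (signature n) * u n

/-- the mean of `β(Ω(n))` over `1 ≤ n ≤ N` -/
noncomputable def mean (β : ℕ → ℂ) (N : ℕ) : ℂ := (∑ n ∈ Icc 1 N, β (Om n)) / N

open Classical in
/-- `E` has logarithmic density zero -/
def LogDensityZero (E : Set ℕ) : Prop := Tendsto
  (fun X : ℕ => (∑ n ∈ Icc 1 X, if n ∈ E then (1 : ℝ) / n else 0) / Real.log X) atTop (nhds 0)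

/-- **Theorem.** For `k`, `m ≥ 1` and `δ > 0` there is `c > 0` depending on `k`, `m`, `δ` only, such that for all
distinct shifts `h_1, ..., h_k`, every `j`, every `β : ℕ → ℂ` with `β(l)^m = 1` for all `l` and all coarse functions
`g_i`, `i ≠ j`:
(A) there is a set `E` of logarithmic density zero such that for all `N` outside `E` for which the mean of `β(Ω(n))`
over `n ≤ N` is at most `1 - δ` in absolute value, the mean of `β(Ω(n + h_j)) ∏_{i ≠ j} g_i(n + h_i)` over `n ≤ N` is
at most `1 - c` in absolute value;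
(B) if the set of the exceptional `N` (mean of `β(Ω(n))` larger than `1 - δ` in absolute value) has logarithmic density
zero, then the logarithmic means of `β(Ω(n + h_j)) ∏_{i ≠ j} g_i(n + h_i)` are at most `1 - c` in absolute value for
all large `N`. -/
theorem result (k m : ℕ) (hm : 1 ≤ m) (δ : ℝ) (hδ : 0 < δ) : ∃ c : ℝ, 0 < c ∧
    ∀ h : Fin k → ℕ, Function.Injective h → ∀ (j : Fin k) (β : ℕ → ℂ), (∀ l, β l ^ m = 1) →
    ∀ g : Fin k → ℕ → ℂ, (∀ i, i ≠ j → Coarse (g i)) →
    (∃ E : Set ℕ, LogDensityZero E ∧ ∀ N : ℕ, N ∉ E → ‖mean β N‖ ≤ 1 - δ →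
      ‖(∑ n ∈ Icc 1 N, β (Om (n + h j)) * ∏ i ∈ univ.erase j, g i (n + h i)) / (N : ℂ)‖ ≤ 1 - c) ∧
    (LogDensityZero {N | 1 - δ < ‖mean β N‖} → ∃ N₀ : ℕ, ∀ N : ℕ, N₀ ≤ N →
      ‖(∑ n ∈ Icc 1 N, (β (Om (n + h j)) * ∏ i ∈ univ.erase j, g i (n + h i)) / (n : ℂ)) /
        (Real.log N : ℂ)‖ ≤ 1 - c) := by
  obtain ⟨c, hc0, -, h1⟩ := Pool.Agent.R512.Q.finE k m hm δ hδ
  refine ⟨c, hc0, fun h hh j β hβ g hg => ?_⟩
  refine h1 h hh j β hβ g fun i hi => ?_
  obtain ⟨y, B, u, hB, ⟨hu1, hu2⟩, h2⟩ := hg i hi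
  exact Pool.Agent.R512.Q.OM_congr y B u hB hu1 hu2 rfl h2

end Pool.Agent.Results.MP_e0aac0_nt.FunctionsOfOmegaRigidity
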