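import Pool.Agent.R512.P.Three

/-!
# Three points: all eight sign patterns of balanced functions of `Ω` have positive density

Asymptotic independence of the values of `Ω` (MP_e0aac0_nt) predicts that for functions `β₁, β₂, β₃` with values `±1`
and small mean values over the values of `Ω`, the eight sign patterns of `β₁(Ω(n + h_1)), β₂(Ω(n + h_2)),
β₃(Ω(n + h_3))` have densities near `1/8`. We prove that all these densities are at least an absolute constant
`c > 0`, for arbitrary balanced functions of `Ω` at two of the points and an arbitrary balanced coarse function with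
values `±1` (function of `Ω`, of the prime signature, multiplicative function, ...) at the third one.
-/

set_option autoImplicit false

open Finset Filter

namespace Pool.Agent.Results.MP_e0aac0_nt.FunctionsOfOmegaThreePatterns

/-- `Ω(n)`, the number of prime factors counted with multiplicity -/
def Om (n : ℕ) : ℕ := ArithmeticFunction.cardFactors n

/-- the prime signature of `n`: the multiset of the exponents of the primes dividing `n` (it determines `Ω(n)`,
`ω(n)`, the number of divisors, ...) -/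
def signature (n : ℕ) : Multiset ℕ := n.primeFactors.val.map (fun p => n.factorization p)

/-- the part of `n` composed of the primes up to `y` -/
def smoothPart (y n : ℕ) : ℕ := ∏ p ∈ n.primeFactors.filter (fun p => p ≤ y), p ^ n.factorization p

/-- `u` is multiplicative with values in the unit disc (on the positive integers) -/
def Mult (u : ℕ → ℂ) : Prop := (∀ n, 1 ≤ n → ‖u n‖ ≤ 1) ∧
  ∀ m n : ℕ, 1 ≤ m → 1 ≤ n → Nat.Coprime m n → u (m * n) = u m * u n

/-- `g(n)`, `n ≥ 1`, is the product of an arbitrary function, bounded by one, of the `y`-smooth part and of the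
prime signature of `n` (for some `y`), and of an arbitrary multiplicative function bounded by one -/
def Coarse (g : ℕ → ℂ) : Prop := ∃ (y : ℕ) (B : ℕ → Multiset ℕ → ℂ) (u : ℕ → ℂ), (∀ s t, ‖B s t‖ ≤ 1) ∧ Mult u ∧
  ∀ n : ℕ, 1 ≤ n → g n = B (smoothPart y n) (signature n) * u n

/-- `x` is a sign -/
def IsSign (x : ℝ) : Prop := x = 1 ∨ x = -1

/-- the means of `β₁(Ω(n))`, `β₂(Ω(n))` and `g(n)` over `1 ≤ n ≤ N` are at most `c` in absolute value -/
def Balanced (c : ℝ) (β₁ β₂ g : ℕ → ℝ) (N : ℕ) : Prop := |∑ n ∈ Icc 1 N, β₁ (Om n)| ≤ c * N ∧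
  |∑ n ∈ Icc 1 N, β₂ (Om n)| ≤ c * N ∧ |∑ n ∈ Icc 1 N, g n| ≤ c * N

open Classical in
/-- the set of `n` with `1 ≤ n ≤ N` and the pattern `s, t, u` at the points `n + h_0, n + h_1, n + h_2` -/
noncomputable def pattern (h : Fin 3 → ℕ) (β₁ β₂ g : ℕ → ℝ) (s t u : ℝ) (N : ℕ) : Finset ℕ :=
  (Icc 1 N).filter (fun n => β₁ (Om (n + h 0)) = s ∧ β₂ (Om (n + h 1)) = t ∧ g (n + h 2) = u)

open Classical in
/-- `E` has logarithmic density zero -/
def LogDensityZero (E : Set ℕ) : Prop := Tendsto
  (fun X : ℕ => (∑ n ∈ Icc 1 X, if n ∈ E then (1 : ℝ) / n else 0) / Real.log X) atTop (nhds 0)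

/-- **Theorem.** There is an absolute constant `c > 0` such that for all distinct shifts `h_0, h_1, h_2`, all functions
`β₁, β₂ : ℕ → {1, -1}` and all coarse functions `g` with values `±1`:
(A) there is a set `E` of logarithmic density zero such that for all `N` outside `E` for which the means of
`β₁(Ω(n))`, `β₂(Ω(n))`, `g(n)` over `n ≤ N` are at most `c` in absolute value, each of the eight patterns of
`β₁(Ω(n + h_0)), β₂(Ω(n + h_1)), g(n + h_2)` occurs for at least `c N` integers `n ≤ N`;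
(B) if the set of the `N` for which one of the three means is larger than `c` has logarithmic density zero, then each
pattern occurs with lower logarithmic density at least `c`. -/
theorem result : ∃ c : ℝ, 0 < c ∧ ∀ h : Fin 3 → ℕ, Function.Injective h → ∀ β₁ β₂ : ℕ → ℝ,
    (∀ l, IsSign (β₁ l)) → (∀ l, IsSign (β₂ l)) → ∀ g : ℕ → ℝ, (∀ n, 1 ≤ n → IsSign (g n)) →
    Coarse (fun n => (g n : ℂ)) →
    (∃ E : Set ℕ, LogDensityZero E ∧ ∀ N : ℕ, N ∉ E → Balanced c β₁ β₂ g N →
      ∀ s t u : ℝ, IsSign s → IsSign t → IsSign u → c * N ≤ (pattern h β₁ β₂ g s t u N).card) ∧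
    (LogDensityZero {N | ¬ Balanced c β₁ β₂ g N} → ∀ s t u : ℝ, IsSign s → IsSign t → IsSign u →
      ∃ X₀ : ℕ, ∀ X : ℕ, X₀ ≤ X → c * Real.log X ≤ ∑ n ∈ pattern h β₁ β₂ g s t u X, (1 : ℝ) / n) := by
  classical
  obtain ⟨c, hc0, hc1, h1⟩ := Pool.Agent.R512.P.three
  have hb : ∀ (β₁ β₂ g : ℕ → ℝ) (N : ℕ), Balanced (c / 2) β₁ β₂ g N → |∑ n ∈ Icc 1 N, β₁ (Om n)| ≤ c * N ∧
      |∑ n ∈ Icc 1 N, β₂ (Om n)| ≤ c * N ∧ |∑ n ∈ Icc 1 N, g n| ≤ c * N := by
    intro β₁ β₂ g N hB
    have hN : (0 : ℝ) ≤ N := Nat.cast_nonneg N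
    have h2 : c / 2 * (N : ℝ) ≤ c * N := mul_le_mul_of_nonneg_right (by linarith) hN
    exact ⟨hB.1.trans h2, hB.2.1.trans h2, hB.2.2.trans h2⟩
  refine ⟨c / 2, by positivity, fun h hh β₁ β₂ hβ₁ hβ₂ g hg hgC => ?_⟩
  obtain ⟨E, hE, h2⟩ := h1 h hh β₁ β₂ hβ₁ hβ₂ g hg hgC
  constructor
  · refine ⟨E, hE, fun N hN hB s t u hs ht hu => ?_⟩
    obtain ⟨b1, b2, b3⟩ := hb β₁ β₂ g N hB
    have h3 := h2 N hN b1 b2 b3 s t u hs ht hu
    have hN : (0 : ℝ) ≤ N := Nat.cast_nonneg N
    refine le_trans (mul_le_mul_of_nonneg_right (by linarith) hN) (h3.trans (le_of_eq ?_))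
    unfold pattern
    congr!
  · intro hZ s t u hs ht hu
    obtain ⟨X₀, hX₀⟩ := Pool.Agent.R512.P.log_low (fun n => β₁ (Om (n + h 0)) = s ∧ β₂ (Om (n + h 1)) = t ∧
      g (n + h 2) = u) c hc0 hc1 (Pool.Agent.Y958.U.LZ_sub (by
        intro N hN
        by_contra hcon
        rw [Set.mem_union, not_or] at hcon
        have hB : Balanced (c / 2) β₁ β₂ g N := by
          by_contra hB
          exact hcon.2 hB
        obtain ⟨b1, b2, b3⟩ := hb β₁ β₂ g N hB
        have h3 := h2 N hcon.1 b1 b2 b3 s t u hs ht hu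
        apply hN
        refine h3.trans (le_of_eq ?_)
        congr!) (Pool.Agent.Y958.U.LZ_union hE hZ))
    refine ⟨X₀, fun X hX => (hX₀ X hX).trans (le_of_eq ?_)⟩
    unfold pattern
    congr!

end Pool.Agent.Results.MP_e0aac0_nt.FunctionsOfOmegaThreePatterns
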