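import Pool.Agent.R509.PQ.Om

/-!
# Joint laws of `Ω` at the points of prisms

Q1 asks for the asymptotic independence of `Ω(n), ..., Ω(n + k - 1)`. Let `A_1, ..., A_k` be sets of possible values
of `Ω`, of densities `α_i ≤ 1/2` (the density of `A` at the scale `N` is the proportion of `n ≤ N` with
`Ω(n) ∈ A`). We consider the joint law of `Ω` at the `2 k` points `n + c_i`, `n + a + c_i` of a prism: the
probability that `Ω(n + c_i) ∈ A_i` and `Ω(n + a + c_i) ∈ A_i` for all `i`. It should be the product of the `α_i ^ 2`.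
We bound its average over `n ≤ N`, `1 ≤ a ≤ H`, `0 ≤ c_i < H`, for all windows `H` between a constant and a constant
times `N`, at all scales outside a set of logarithmic density zero: it is at most the geometric mean of the numbers
`2 α_i ^ (k + 1) / (k + 1)`, up to `ε`. (The trivial bound is the geometric mean of the `α_i ^ (k + 1)`.)
-/

set_option autoImplicit false

open Finset Filter

namespace Pool.Agent.Results.MP_e0aac0_nt.PrismPatterns

open Classical in
/-- `E` has logarithmic density zero -/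
def LogDensityZero (E : Set ℕ) : Prop := Tendsto
  (fun X : ℕ => (∑ n ∈ Icc 1 X, if n ∈ E then (1 : ℝ) / n else 0) / Real.log X) atTop (nhds 0)

/-- `Ω(n)`, the number of prime factors counted with multiplicity -/
def Om (n : ℕ) : ℕ := ArithmeticFunction.cardFactors n

/-- the density of `A` at the scale `N`: the proportion of the `1 ≤ n ≤ N` with `Ω(n) ∈ A` -/
noncomputable def dens (A : Set ℕ) (N : ℕ) : ℝ := ({n : ℕ | (1 ≤ n ∧ n ≤ N) ∧ Om n ∈ A}.ncard : ℝ) / N

/-- the proportion of the `(n, a, c)` with `1 ≤ n ≤ N`, `1 ≤ a ≤ H` and `c ∈ {0, ..., H - 1}^k` such that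
`Ω(n + c_i) ∈ A_i` and `Ω(n + a + c_i) ∈ A_i` for `i = 1, ..., k` -/
noncomputable def prism {k : ℕ} (A : Fin k → Set ℕ) (N H : ℕ) : ℝ :=
  ({t : ℕ × ℕ × (Fin k → ℕ) | (1 ≤ t.1 ∧ t.1 ≤ N) ∧ (1 ≤ t.2.1 ∧ t.2.1 ≤ H) ∧ (∀ i, t.2.2 i < H) ∧
    ∀ i, Om (t.1 + t.2.2 i) ∈ A i ∧ Om (t.1 + t.2.1 + t.2.2 i) ∈ A i}.ncard : ℝ) / (N * (H : ℝ) ^ (k + 1))

open Pool.Agent.R509.PQ (ff dn Ik icc_range)
open Pool.Agent.R509.CD (S)

lemma dens_eq (A : Set ℕ) (N : ℕ) : dens A N = dn A N := by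
  classical
  unfold dens dn
  congr 1
  have h1 : {n : ℕ | (1 ≤ n ∧ n ≤ N) ∧ Om n ∈ A} = ↑((Icc 1 N).filter (fun n => Om n ∈ A)) := by
    ext n
    simp only [Set.mem_ofPred_eq, coe_filter, mem_Icc]
  rw [h1, Set.ncard_coe_finset, ← sum_boole, icc_range]
  rfl

open Classical in
lemma S_card (A : Set ℕ) (H n a : ℕ) (hH : 1 ≤ H) : S (ff A) H n a * H =
    (((range H).filter (fun b => Om (n + 1 + b) ∈ A ∧ Om (n + 1 + a + b) ∈ A)).card : ℝ) := by
  classical
  have hH0 : (0 : ℝ) < H := by exact_mod_cast hH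
  unfold S
  rw [div_mul_cancel₀ _ hH0.ne', ← sum_boole]
  apply sum_congr rfl
  intro b _
  unfold ff Om
  rw [show n + 1 + b = n + b + 1 by ring, show n + 1 + a + b = n + b + a + 1 by ring]
  by_cases h1 : ArithmeticFunction.cardFactors (n + b + 1) ∈ A <;>
    by_cases h2 : ArithmeticFunction.cardFactors (n + b + a + 1) ∈ A <;> simp [h1, h2]

lemma prism_eq {k : ℕ} (A : Fin k → Set ℕ) (N H : ℕ) (hN : 1 ≤ N) (hH : 1 ≤ H) :
    prism A N H * (N * H) = ∑ n ∈ range N, ∑ a ∈ Icc 1 H, ∏ i, S (ff (A i)) H n a := by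
  classical
  have hH0 : (0 : ℝ) < H := by exact_mod_cast hH
  have hN0 : (0 : ℝ) < N := by exact_mod_cast hN
  set P : ℕ → ℕ → Fin k → ℕ → Prop := fun n a i b => Om (n + b) ∈ A i ∧ Om (n + a + b) ∈ A i with hP
  have h1 : {t : ℕ × ℕ × (Fin k → ℕ) | (1 ≤ t.1 ∧ t.1 ≤ N) ∧ (1 ≤ t.2.1 ∧ t.2.1 ≤ H) ∧ (∀ i, t.2.2 i < H) ∧
      ∀ i, Om (t.1 + t.2.2 i) ∈ A i ∧ Om (t.1 + t.2.1 + t.2.2 i) ∈ A i} =
      ↑((Icc 1 N ×ˢ Icc 1 H ×ˢ Fintype.piFinset (fun _ : Fin k => range H)).filter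
        (fun t => ∀ i, P t.1 t.2.1 i (t.2.2 i))) := by
    ext t
    simp only [Set.mem_ofPred_eq, coe_filter, mem_product, mem_Icc, Fintype.mem_piFinset, mem_range, hP]
    tauto
  have h2 : ∀ n a : ℕ, ((((Fintype.piFinset (fun _ : Fin k => range H)).filter (fun c => ∀ i, P n a i (c i))).card : ℕ) : ℝ) =
      ∏ i, (((range H).filter (fun b => P n a i b)).card : ℝ) := by
    intro n a
    have e1 : (Fintype.piFinset (fun _ : Fin k => range H)).filter (fun c => ∀ i, P n a i (c i)) =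
        Fintype.piFinset (fun i => (range H).filter (fun b => P n a i b)) := by
      ext c
      simp only [mem_filter, Fintype.mem_piFinset]
      constructor
      · intro h i
        exact ⟨h.1 i, h.2 i⟩
      · intro h
        exact ⟨fun i => (h i).1, fun i => (h i).2⟩
    rw [e1, Fintype.card_piFinset]
    push_cast
    rfl
  have h3 : (((Icc 1 N ×ˢ Icc 1 H ×ˢ Fintype.piFinset (fun _ : Fin k => range H)).filter
        (fun t => ∀ i, P t.1 t.2.1 i (t.2.2 i))).card : ℝ) =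
      ∑ n ∈ Icc 1 N, ∑ a ∈ Icc 1 H, ∏ i, (((range H).filter (fun b => P n a i b)).card : ℝ) := by
    rw [← sum_boole, sum_product]
    apply sum_congr rfl
    intro n _
    rw [sum_product]
    apply sum_congr rfl
    intro a _
    rw [sum_boole, ← h2]
  unfold prism
  rw [h1, Set.ncard_coe_finset, h3, icc_range]
  have h4 : ∀ n a : ℕ, ∏ i, (((range H).filter (fun b => P (n + 1) a i b)).card : ℝ) =
      (∏ i, S (ff (A i)) H n a) * (H : ℝ) ^ k := by
    intro n a
    rw [prod_congr rfl fun i _ => (S_card (A i) H n a hH).symm, prod_mul_distrib, prod_const, card_univ, Fintype.card_fin]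
  rw [sum_congr rfl fun n _ => sum_congr rfl fun a _ => h4 n a]
  simp only [← sum_mul]
  rw [pow_succ]
  field_simp

/-- **Theorem.** To every set `A ⊆ ℕ` one can assign a set `E(A)` of scales, of logarithmic density zero, such that
for all `k ≥ 1` and `ε > 0` there is a constant `C` with the following properties.
(1) For all `A_1, ..., A_k`, all large `N` outside the sets `E(A_i)` with all densities `α_i = dens (A_i) N ≤ 1/2`, and
all `H` with `C ≤ H ≤ N / C`, the proportion of the `(n, a, c)` with `Ω(n + c_i) ∈ A_i` and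
`Ω(n + a + c_i) ∈ A_i` for all `i` is at most the geometric mean of the `2 α_i ^ (k + 1) / (k + 1) + ε`.
(2) For one set `A` of density `α` the proportion is at most `2 α ^ (k + 1) / (k + 1) + ε`. -/
theorem result : ∃ E : Set ℕ → Set ℕ, (∀ A, LogDensityZero (E A)) ∧ ∀ k : ℕ, 1 ≤ k → ∀ ε : ℝ, 0 < ε → ∃ C : ℕ, 1 ≤ C ∧
    (∀ A : Fin k → Set ℕ, ∃ N₀ : ℕ, ∀ N : ℕ, N₀ ≤ N → (∀ i, N ∉ E (A i)) → (∀ i, dens (A i) N ≤ 1 / 2) →
      ∀ H : ℕ, C ≤ H → C * H ≤ N →
        prism A N H ≤ ∏ i, (2 * dens (A i) N ^ (k + 1) / (k + 1) + ε) ^ ((1 : ℝ) / k)) ∧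
    (∀ A : Set ℕ, ∃ N₀ : ℕ, ∀ N : ℕ, N₀ ≤ N → N ∉ E A → dens A N ≤ 1 / 2 → ∀ H : ℕ, C ≤ H → C * H ≤ N →
      prism (fun _ : Fin k => A) N H ≤ 2 * dens A N ^ (k + 1) / (k + 1) + ε) := by
  choose E hE hTP using Pool.Agent.R509.PQ.twoP
  refine ⟨E, hE, fun k hk ε hε => ?_⟩
  obtain ⟨C₁, hC1, h1⟩ := Pool.Agent.R509.PQ.family k hk ε hε
  obtain ⟨C₂, hC2, h2⟩ := Pool.Agent.R509.PQ.single k hk ε hε
  refine ⟨max C₁ C₂, hC1.trans (le_max_left _ _), fun A => ?_, fun A => ?_⟩
  · obtain ⟨N₀, h⟩ := h1 A (fun i => E (A i)) (fun i => hTP (A i))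
    refine ⟨N₀ + 1, fun N hN hNE hd H hH hHN => ?_⟩
    have hH1 : 1 ≤ H := (hC1.trans (le_max_left _ _)).trans hH
    have hH0 : (0 : ℝ) < H := by exact_mod_cast hH1
    have hN0 : (0 : ℝ) < N := by exact_mod_cast (by omega : 0 < N)
    have h3 := h N (by omega) hNE (fun i => by rw [← dens_eq]; exact hd i) H ((le_max_left _ _).trans hH)
      ((Nat.mul_le_mul_right _ (le_max_left _ _)).trans hHN)
    rw [← prism_eq A N H (by omega) hH1, mul_assoc] at h3
    have h4 := le_of_mul_le_mul_right h3 (by positivity)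
    refine h4.trans (le_of_eq ?_)
    apply prod_congr rfl
    intro i _
    rw [dens_eq]
    unfold Ik
    rw [mul_div_assoc]
  · obtain ⟨N₀, h⟩ := h2 A (E A) (hTP A)
    refine ⟨N₀ + 1, fun N hN hNE hd H hH hHN => ?_⟩
    have hH1 : 1 ≤ H := (hC1.trans (le_max_left _ _)).trans hH
    have hH0 : (0 : ℝ) < H := by exact_mod_cast hH1
    have hN0 : (0 : ℝ) < N := by exact_mod_cast (by omega : 0 < N)
    have h3 := h N (by omega) hNE (by rw [← dens_eq]; exact hd) H ((le_max_right _ _).trans hH)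
      ((Nat.mul_le_mul_right _ (le_max_right _ _)).trans hHN)
    have h5 := prism_eq (fun _ : Fin k => A) N H (by omega) hH1
    simp only [prod_const, card_univ, Fintype.card_fin] at h5
    rw [← h5, mul_assoc] at h3
    have h4 := le_of_mul_le_mul_right h3 (by positivity)
    refine h4.trans (le_of_eq ?_)
    rw [dens_eq]
    unfold Ik
    rw [mul_div_assoc]

end Pool.Agent.Results.MP_e0aac0_nt.PrismPatterns
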